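import Mathlib

namespace Pool.Agent.Results.MP_10193a_al.Uni

universe u
variable {A : Type u} [AddCommGroup A]

def Ch (A : Type u) [AddCommGroup A] : Prop :=
  ∀ f g : AddMonoid.End A, (∃ h, f = g * h) ∨ ∃ h, g = f * h

lemma idem (H : Ch A) (e : AddMonoid.End A) (he : e * e = e) : e = 0 ∨ e = 1 := by
  rcases H e (1 - e) with ⟨h, hh⟩ | ⟨h, hh⟩
  · left
    calc e = e * e := he.symm
      _ = e * ((1 - e) * h) := by rw [← hh]
      _ = 0 := by rw [← mul_assoc, mul_sub, mul_one, he, sub_self, zero_mul]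
  · right
    have : (1 - e) * (1 - e) = (1 - e) * (e * h) := by rw [← hh]
    rw [← mul_assoc, sub_mul 1 e e, he, one_mul, sub_self, zero_mul, mul_sub, mul_one, sub_mul,
      one_mul, he, sub_self, sub_zero, sub_eq_zero] at this
    exact this.symm

lemma divis (H : Ch A) (D : AddSubgroup A) (hD : ∀ n : ℕ, n ≠ 0 → ∀ x ∈ D, ∃ y ∈ D, n • y = x) :
    D = ⊥ ∨ D = ⊤ := by
  letI : DivisibleBy D ℕ := divisibleByOfSMulRightSurj _ _ (fun {n} hn x => by
    obtain ⟨y, hy, h⟩ := hD n hn x x.2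
    exact ⟨⟨y, hy⟩, Subtype.ext h⟩)
  letI : DivisibleBy D ℤ := AddGroup.divisibleByIntOfDivisibleByNat _
  obtain ⟨r, hr⟩ := (Module.Baer.of_divisible D).extension_property_addMonoidHom D.subtype
    D.subtype_injective (AddMonoidHom.id D)
  have h1 : ∀ x : D, r x = x := fun x => DFunLike.congr_fun hr x
  rcases idem H (D.subtype.comp r) (by ext x; exact congrArg Subtype.val (h1 (r x))) with h | h
  · left
    rw [eq_bot_iff]
    intro x hx
    have : ((r x : D) : A) = 0 := DFunLike.congr_fun h x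
    rwa [h1 ⟨x, hx⟩] at this
  · right
    rw [eq_top_iff]
    intro x _
    have : ((r x : D) : A) = x := DFunLike.congr_fun h x
    rw [← this]; exact (r x).2

lemma ce_dom {R : Type u} [Ring R] (hd : ∀ a b : R, a * b = 0 → a = 0 ∨ b = 0)
    (hc : ∀ a : R, a ≠ 0 → ∃ x ∈ Subring.center R, ∃ y ∈ Subring.center R,
      x ≠ 0 ∧ y ≠ 0 ∧ a * x = y) (a b : R) : a * b = b * a := by
  by_cases ha : a = 0
  · simp [ha]
  obtain ⟨x, hx, y, hy, h0, -, h⟩ := hc a ha
  rw [Subring.mem_center_iff] at hx hy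
  have : (a * b - b * a) * x = 0 := by
    rw [sub_mul, mul_assoc, hx b, ← mul_assoc, mul_assoc b, h, hy b, sub_self]
  exact sub_eq_zero.mp ((hd _ _ this).resolve_right h0)

lemma dual (K : Type) (V : Type u) [Field K] [AddCommGroup V] [Module K V] (x : V) (hx : x ≠ 0) :
    ∃ f : V →+ K, f x = 1 :=
  have ⟨f, hf⟩ := Module.Projective.exists_dual_eq_one K hx
  ⟨f.toAddMonoidHom, hf⟩

lemma rank1 (H : Ch A) {p : ℕ} (pp : p.Prime) {x0 : A} (h0 : ¬ ∃ y, p • y = x0) :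
    (∀ a : A, p • a = 0 → ∃ φ : AddMonoid.End A, φ x0 = a ∧ ∀ y, φ (p • y) = 0) ∧
    ∀ a b : A, p • a = 0 → p • b = 0 → a ≠ 0 → ∃ k : ℤ, b = k • a := by
  haveI := Fact.mk pp
  let P : AddSubgroup A := (nsmulAddMonoidHom p : A →+ A).range
  letI : Module (ZMod p) (A ⧸ P) := QuotientAddGroup.zmodModule (fun x => ⟨x, rfl⟩)
  obtain ⟨f, hf⟩ := dual (ZMod p) (A ⧸ P) x0 (by rwa [Ne, QuotientAddGroup.eq_zero_iff])
  have key : ∀ a : A, p • a = 0 → ∃ φ : AddMonoid.End A, φ x0 = a ∧ (∀ y, φ (p • y) = 0) ∧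
      ∀ y, ∃ k : ℤ, φ y = k • a := by
    intro a ha
    let g : ZMod p →+ A := ZMod.lift p ⟨zmultiplesHom A a, by simpa using ha⟩
    have hg : ∀ k : ℤ, g k = k • a := fun k => by simp [g]
    refine ⟨g.comp (f.comp (QuotientAddGroup.mk' P)), ?_, ?_, ?_⟩
    · show g (f (x0 : A ⧸ P)) = a
      rw [hf]; simpa using hg 1
    · intro y
      show g (f ((p • y : A) : A ⧸ P)) = 0
      rw [(QuotientAddGroup.eq_zero_iff (N := P) (p • y)).mpr ⟨y, rfl⟩, map_zero, map_zero]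
    · intro y
      obtain ⟨k, hk⟩ := ZMod.intCast_surjective (f (y : A ⧸ P))
      exact ⟨k, by rw [← hg, hk]; rfl⟩
  refine ⟨fun a ha => (key a ha).imp fun φ h => ⟨h.1, h.2.1⟩, fun a b ha hb hne => ?_⟩
  obtain ⟨φ, h1, -, h2⟩ := key a ha
  obtain ⟨ψ, h3, -, h4⟩ := key b hb
  rcases H ψ φ with ⟨h, rfl⟩ | ⟨h, rfl⟩
  · obtain ⟨k, hk⟩ := h2 (h x0)
    exact ⟨k, h3.symm.trans hk⟩
  · obtain ⟨k, hk⟩ := h4 (h x0)
    have hab : a = k • b := h1.symm.trans hk
    have hc : IsCoprime (p : ℤ) k := by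
      rw [(Nat.prime_iff_prime_int.mp pp).irreducible.coprime_iff_not_dvd]
      rintro ⟨c, rfl⟩
      apply hne
      rw [hab, mul_comm, mul_smul, natCast_zsmul, hb, smul_zero]
    obtain ⟨s, t, hst⟩ := hc
    refine ⟨t, ?_⟩
    rw [hab, smul_smul, eq_sub_of_add_eq' hst, sub_smul, one_smul, mul_smul, natCast_zsmul, hb,
      smul_zero, sub_zero]

lemma cyc {p : ℕ} (hr : ∀ a b : A, p • a = 0 → p • b = 0 → a ≠ 0 → ∃ k : ℤ, b = k • a)
    (s : A) (m : ℕ) (h1 : p ^ m • s ≠ 0) (h2 : p ^ (m + 1) • s = 0) :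
    ∀ k j x, k + j = m + 1 → p ^ k • x = 0 → ∃ c : ℤ, x = c • p ^ j • s := by
  intro k
  induction k with
  | zero => intro j x _ hx; exact ⟨0, by simpa using hx⟩
  | succ k ih =>
    intro j x hj hx
    obtain ⟨c, hc⟩ := ih (j + 1) (p • x) (by omega) (by rwa [smul_smul, ← pow_succ])
    obtain ⟨d, hd⟩ := hr (p ^ m • s) (x - c • p ^ j • s) (by rwa [smul_smul, ← pow_succ'])
      (by rw [smul_sub, hc, smul_comm p c, smul_smul p, ← pow_succ', sub_self]) h1
    refine ⟨c + d * p ^ k, ?_⟩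
    rw [add_smul, mul_smul, ← sub_eq_iff_eq_add', hd, show m = k + j by omega, pow_add, mul_smul]
    norm_cast

def tors (A : Type u) [AddCommGroup A] (p : ℕ) : AddSubgroup A where
  carrier := {x | ∃ k, p ^ k • x = 0}
  zero_mem' := ⟨0, by simp⟩
  add_mem' := by
    rintro a b ⟨k, hk⟩ ⟨l, hl⟩
    refine ⟨k + l, ?_⟩
    rw [smul_add, pow_add, mul_smul _ _ b, hl, mul_comm, mul_smul, hk]; simp
  neg_mem' := by
    rintro a ⟨k, hk⟩
    exact ⟨k, by simp [hk]⟩

lemma tors_div {p : ℕ} (pp : p.Prime) (h : ∀ x ∈ tors A p, ∃ y, p • y = x) :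
    ∀ n : ℕ, n ≠ 0 → ∀ x ∈ tors A p, ∃ y ∈ tors A p, n • y = x := by
  intro n
  induction n using Nat.recOnMul with
  | zero => simp
  | one => intro _ x hx; exact ⟨x, hx, one_smul _ _⟩
  | prime q hq =>
    rintro - x ⟨k, hk⟩
    by_cases hpq : q = p
    · subst hpq
      obtain ⟨y, rfl⟩ := h x ⟨k, hk⟩
      exact ⟨y, ⟨k + 1, by rwa [pow_succ, mul_smul]⟩, rfl⟩
    · obtain ⟨s, t, hst⟩ := Nat.isCoprime_iff_coprime.mpr
        (Nat.Coprime.pow_right k ((Nat.coprime_primes hq pp).2 hpq))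
      refine ⟨s • x, zsmul_mem (show x ∈ tors A p from ⟨k, hk⟩) _, ?_⟩
      rw [← natCast_zsmul, smul_smul, mul_comm, eq_sub_of_add_eq hst, sub_smul, one_smul, mul_smul,
        natCast_zsmul, hk, smul_zero, sub_zero]
  | mul a b ha hb =>
    intro hab x hx
    obtain ⟨y, hy, rfl⟩ := ha (left_ne_zero_of_mul hab) x hx
    obtain ⟨z, hz, rfl⟩ := hb (right_ne_zero_of_mul hab) y hy
    exact ⟨z, hz, mul_smul _ _ _⟩

theorem result (A : Type u) [AddCommGroup A]
    (hu : ∀ I J : Submodule (AddMonoid.End A)ᵐᵒᵖ (AddMonoid.End A), I ≤ J ∨ J ≤ I)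
    (hc : ∀ a : AddMonoid.End A, a ≠ 0 → ∃ x ∈ Subring.center (AddMonoid.End A),
      ∃ y ∈ Subring.center (AddMonoid.End A), x ≠ 0 ∧ y ≠ 0 ∧ a * x = y)
    (f g : AddMonoid.End A) : f * g = g * f := by
  have H : Ch A := by
    intro f g
    rcases hu (Submodule.span _ {f}) (Submodule.span _ {g}) with h | h
    · obtain ⟨c, hc⟩ := Submodule.mem_span_singleton.mp (h (Submodule.mem_span_singleton_self _))
      exact Or.inl ⟨c.unop, hc.symm⟩
    · obtain ⟨c, hc⟩ := Submodule.mem_span_singleton.mp (h (Submodule.mem_span_singleton_self _))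
      exact Or.inr ⟨c.unop, hc.symm⟩
  by_cases hdiv : ∀ n : ℕ, n ≠ 0 → ∀ x : A, ∃ y, n • y = x
  · refine ce_dom (fun a b hab => ?_) hc f g
    rcases divis H (AddMonoidHom.range b) (by
      rintro n hn _ ⟨x, rfl⟩
      obtain ⟨y, rfl⟩ := hdiv n hn x
      exact ⟨b y, ⟨y, rfl⟩, (map_nsmul b _ _).symm⟩) with h | h
    · right
      ext x
      have : b x ∈ AddMonoidHom.range b := ⟨x, rfl⟩
      rwa [h] at this
    · left
      ext x
      have : x ∈ AddMonoidHom.range b := by rw [h]; trivial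
      obtain ⟨y, rfl⟩ := this
      exact DFunLike.congr_fun hab y
  have red : ∀ D : AddSubgroup A, (∀ n : ℕ, n ≠ 0 → ∀ x ∈ D, ∃ y ∈ D, n • y = x) → D = ⊥ := by
    intro D hD
    refine (divis H D hD).resolve_right ?_
    rintro rfl
    exact hdiv fun n hn x => (hD n hn x trivial).imp fun y h => h.2
  by_cases htf : ∀ p : ℕ, p.Prime → ∀ a : A, p • a = 0 → a = 0
  · have tf : ∀ n : ℕ, n ≠ 0 → ∀ a : A, n • a = 0 → a = 0 := by
      intro n
      induction n using Nat.recOnMul with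
      | zero => simp
      | one => simp
      | prime q hq => intro _; exact htf q hq
      | mul a b ha hb =>
        intro hab x hx
        rw [mul_smul] at hx
        exact hb (right_ne_zero_of_mul hab) _ (ha (left_ne_zero_of_mul hab) _ hx)
    let D : AddSubgroup A :=
      { carrier := {x | ∀ n : ℕ, n ≠ 0 → ∃ y, n • y = x}
        zero_mem' := fun n _ => ⟨0, by simp⟩
        add_mem' := fun ha hb n hn => by
          obtain ⟨x, rfl⟩ := ha n hn
          obtain ⟨y, rfl⟩ := hb n hn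
          exact ⟨x + y, smul_add _ _ _⟩
        neg_mem' := fun ha n hn => by
          obtain ⟨x, rfl⟩ := ha n hn
          exact ⟨-x, smul_neg _ _⟩ }
    have hD : D = ⊥ := red D (by
      intro n hn x hx
      obtain ⟨y, rfl⟩ := hx n hn
      refine ⟨y, fun m hm => ?_, rfl⟩
      obtain ⟨z, hz⟩ := hx (n * m) (mul_ne_zero hn hm)
      refine ⟨z, sub_eq_zero.mp (tf n hn _ ?_)⟩
      rw [smul_sub, smul_smul, hz, sub_self])
    refine ce_dom (fun a b hab => ?_) hc f g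
    by_cases h : ∀ n : ℕ, n ≠ 0 → ∃ h, b = (n : AddMonoid.End A) * h
    · right
      ext x
      have : b x ∈ D := fun n hn => by
        obtain ⟨k, hk⟩ := h n hn
        exact ⟨k x, by simp [hk]⟩
      rwa [hD] at this
    · left
      push Not at h
      obtain ⟨n, hn, h⟩ := h
      obtain ⟨k, hk⟩ := (H b n).resolve_left (by simpa using h)
      ext x
      have : a * n = 0 := by rw [hk, ← mul_assoc, hab, zero_mul]
      exact tf n hn _ (by simpa using DFunLike.congr_fun this x)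
  push Not at htf
  obtain ⟨p, pp, a, ha, ha0⟩ := htf
  have hT : ¬ ∀ x ∈ tors A p, ∃ y, p • y = x := fun h => ha0 (by
    have : a ∈ tors A p := ⟨1, by simpa using ha⟩
    rwa [red _ (tors_div pp h)] at this)
  push Not at hT
  obtain ⟨x0, ⟨k0, hk0⟩, h0⟩ := hT
  obtain ⟨r1, r2⟩ := rank1 H pp (x0 := x0) (by simpa using h0)
  obtain ⟨φ, h1, h2⟩ := r1 a ha
  rcases H φ ((p ^ k0 : ℕ) : AddMonoid.End A) with ⟨h, hh⟩ | ⟨h, hh⟩
  · exfalso
    have e : p ^ k0 • h x0 = a := by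
      rw [← h1, hh]; rfl
    obtain ⟨c, hc⟩ := cyc r2 (h x0) k0 (by rwa [e]) (by rwa [pow_succ', mul_smul, e]) k0 1 x0 rfl hk0
    exact h0 (c • h x0) (by rw [smul_comm, ← pow_one p, ← hc])
  · have hb : ∃ m, ∀ x : A, p ^ m • x = 0 := ⟨k0 + 1, fun x => by
      have : p ^ k0 • x = φ (h x) := DFunLike.congr_fun hh x
      rw [pow_succ', mul_smul, this, ← map_nsmul, h2]⟩
    classical
    have hm := Nat.find_spec hb
    have hm0 : Nat.find hb ≠ 0 := fun h => ha0 (by simpa [h] using hm a)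
    obtain ⟨m, hm1⟩ := Nat.exists_eq_succ_of_ne_zero hm0
    have := Nat.find_min hb (m := m) (by omega)
    push Not at this
    obtain ⟨s, hs⟩ := this
    rw [hm1] at hm
    have gen : ∀ x : A, ∃ c : ℤ, x = c • s := fun x => by
      simpa using cyc r2 s m hs (hm s) (m + 1) 0 x rfl (hm x)
    ext x
    obtain ⟨c, rfl⟩ := gen x
    obtain ⟨d, hd⟩ := gen (f s)
    obtain ⟨e, he⟩ := gen (g s)
    show f (g (c • s)) = g (f (c • s))
    simp only [map_zsmul, hd, he]
    rw [smul_comm e d]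

end Pool.Agent.Results.MP_10193a_al.Uni
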